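import Pool.Agent.N594.NT.Stm

/-!
# NT/NB: no vertex has many neighbours in all parts
-/

set_option autoImplicit false

open Finset
open scoped Classical

namespace Pool.Agent.N624.NT.NB

open Pool.Agent.TH200.LP Pool.Agent.N594.NT

/-- The index set of the configurations. -/
abbrev Ix (d k : ℕ) : Type := Fin k × Fin (d + 1)

/-- A missing edge in every configuration. -/
lemma core {d k : ℕ} {V : Type} (H : Finset V → Prop) (hFr : Fr d k H) (x : V)
    (ω : Ix d k → V) :
    (∃ J : Finset (Ix d k), J.card = d + 2 ∧ ¬ H (J.image ω)) ∨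
    (∃ J : Finset (Ix d k), J.card = d + 1 ∧ ¬ H (insert x (J.image ω))) := by
  have hcard : Fintype.card (Option (Ix d k)) = k * (d + 1) + 1 := by
    simp [Ix]
  let e : Fin (k * (d + 1) + 1) ≃ Option (Ix d k) := (Fintype.equivFinOfCardEq hcard).symm
  obtain ⟨J, hJc, hJ⟩ := hFr (fun i => (e i).elim x ω)
  let K : Finset (Option (Ix d k)) := J.map e.toEmbedding
  have hK : K.card = d + 2 := by
    show (J.map e.toEmbedding).card = d + 2
    rw [card_map]
    exact hJc
  have hKi : J.image (fun i => (e i).elim x ω) = K.image (fun o => o.elim x ω) := by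
    ext v
    simp only [mem_image, K, mem_map, Equiv.coe_toEmbedding]
    constructor
    · rintro ⟨i, hi, rfl⟩
      exact ⟨e i, ⟨i, hi, rfl⟩, rfl⟩
    · rintro ⟨o, ⟨i, hi, rfl⟩, rfl⟩
      exact ⟨i, hi, rfl⟩
  rw [hKi] at hJ
  have hmap := Finset.map_some_eraseNone K
  by_cases hn : (none : Option (Ix d k)) ∈ K
  · right
    refine ⟨eraseNone K, ?_, ?_⟩
    · have h1 : ((eraseNone K).map Function.Embedding.some).card = (K.erase none).card := by
        rw [hmap]
      rw [card_map, card_erase_of_mem hn, hK] at h1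
      omega
    · intro h
      apply hJ
      have : K.image (fun o => o.elim x ω) = insert x ((eraseNone K).image ω) := by
        ext v
        simp only [mem_image, mem_insert, mem_eraseNone]
        constructor
        · rintro ⟨o, ho, rfl⟩
          cases o with
          | none => left; rfl
          | some a => right; exact ⟨a, ho, rfl⟩
        · rintro (rfl | ⟨a, ha, rfl⟩)
          · exact ⟨none, hn, rfl⟩
          · exact ⟨some a, ha, rfl⟩
      rw [this]
      exact h
  · left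
    refine ⟨eraseNone K, ?_, ?_⟩
    · have h1 : ((eraseNone K).map Function.Embedding.some).card = (K.erase none).card := by
        rw [hmap]
      rw [card_map, erase_eq_of_notMem hn, hK] at h1
      exact h1
    · intro h
      apply hJ
      have : K.image (fun o => o.elim x ω) = (eraseNone K).image ω := by
        ext v
        simp only [mem_image, mem_eraseNone]
        constructor
        · rintro ⟨o, ho, rfl⟩
          cases o with
          | none => exact absurd ho hn
          | some a => exact ⟨a, ho, rfl⟩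
        · rintro ⟨a, ha, rfl⟩
          exact ⟨some a, ha, rfl⟩
      rw [this]
      exact h

lemma fst_ne {d k : ℕ} {J : Finset (Ix d k)} (hJ : J.card = d + 2) :
    ∃ i ∈ J, ∃ j ∈ J, i.1 ≠ j.1 := by
  have h1 : (univ : Finset (Fin (d + 1))).card < J.card := by
    rw [card_univ, Fintype.card_fin, hJ]
    omega
  obtain ⟨i, hi, j, hj, hij, h⟩ := Finset.exists_ne_map_eq_of_card_lt_of_maps_to h1
    (f := fun p : Ix d k => p.2) (fun a _ => mem_univ _)
  exact ⟨i, hi, j, hj, fun h2 => hij (Prod.ext h2 h)⟩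

/-- Index set of the terms without fixed vertex. -/
noncomputable def S2 (d k : ℕ) : Finset (Finset (Ix d k) × Ix d k × Ix d k) :=
  univ.filter fun p => p.1.card = d + 2 ∧ p.2.1 ∈ p.1 ∧ p.2.2 ∈ p.1 ∧ p.2.1 ≠ p.2.2

/-- Index set of the terms with the fixed vertex. -/
noncomputable def S1 (d k : ℕ) : Finset (Finset (Ix d k) × Ix d k) :=
  univ.filter fun p => p.1.card = d + 1 ∧ p.2 ∈ p.1

/-- A term without fixed vertex. -/
noncomputable def T2 {d k : ℕ} {V : Type} (G : V → V → Prop) (H : Finset V → Prop)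
    (p : Finset (Ix d k) × Ix d k × Ix d k) (ω : Ix d k → V) : ℝ :=
  ind (G (ω p.2.1) (ω p.2.2)) * ind (¬ H (p.1.image ω))

/-- A term with the fixed vertex. -/
noncomputable def T1 {d k : ℕ} {V : Type} (G : V → V → Prop) (H : Finset V → Prop) (x : V)
    (p : Finset (Ix d k) × Ix d k) (ω : Ix d k → V) : ℝ :=
  ind (G x (ω p.2)) * ind (¬ H (insert x (p.1.image ω)))

lemma T2_nonneg {d k : ℕ} {V : Type} (G : V → V → Prop) (H : Finset V → Prop)
    (p : Finset (Ix d k) × Ix d k × Ix d k) (ω : Ix d k → V) : 0 ≤ T2 G H p ω :=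
  mul_nonneg (ind_nonneg _) (ind_nonneg _)

lemma T1_nonneg {d k : ℕ} {V : Type} (G : V → V → Prop) (H : Finset V → Prop) (x : V)
    (p : Finset (Ix d k) × Ix d k) (ω : Ix d k → V) : 0 ≤ T1 G H x p ω :=
  mul_nonneg (ind_nonneg _) (ind_nonneg _)

lemma pointwise {d k : ℕ} {V : Type} [Fintype V] (G : V → V → Prop) (H : Finset V → Prop)
    (hFr : Fr d k H) (π : V → Fin k) (x : V) (ω : Ix d k → V) :
    ind (Good G (fun p : Ix d k => p.1) (fun p v => π v = p.1 ∧ G x v) ω) ≤
      ∑ p ∈ S2 d k, T2 G H p ω + ∑ p ∈ S1 d k, T1 G H x p ω := by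
  have n2 : 0 ≤ ∑ p ∈ S2 d k, T2 G H p ω := sum_nonneg fun p _ => T2_nonneg G H p ω
  have n1 : 0 ≤ ∑ p ∈ S1 d k, T1 G H x p ω := sum_nonneg fun p _ => T1_nonneg G H x p ω
  by_cases hg : Good G (fun p : Ix d k => p.1) (fun p v => π v = p.1 ∧ G x v) ω
  · rw [ind_true hg]
    rcases core H hFr x ω with ⟨J, hJ, hH⟩ | ⟨J, hJ, hH⟩
    · obtain ⟨i, hi, j, hj, hij⟩ := fst_ne hJ
      have hm : (J, i, j) ∈ S2 d k :=
        mem_filter.2 ⟨mem_univ _, hJ, hi, hj, fun h => hij (congrArg Prod.fst h)⟩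
      have h5 := single_le_sum (f := fun p => T2 G H p ω)
        (fun p _ => T2_nonneg G H p ω) hm
      have h6 : T2 G H (J, i, j) ω = 1 := by
        unfold T2
        rw [ind_true (show ¬ H (J.image ω) from hH), ind_true (hg.2 i j hij)]
        norm_num
      simp only [h6] at h5
      linarith
    · have hne : J.Nonempty := by
        rw [← card_pos, hJ]
        omega
      obtain ⟨j, hj⟩ := hne
      have hm : (J, j) ∈ S1 d k := mem_filter.2 ⟨mem_univ _, hJ, hj⟩
      have h5 := single_le_sum (f := fun p => T1 G H x p ω)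
        (fun p _ => T1_nonneg G H x p ω) hm
      have h6 : T1 G H x (J, j) ω = 1 := by
        unfold T1
        rw [ind_true (show ¬ H (insert x (J.image ω)) from hH), ind_true (hg.1 j).2]
        norm_num
      simp only [h6] at h5
      linarith
  · rw [ind_false hg]
    linarith

lemma gr_le {d : ℕ} {V : Type} [Fintype V] {H : Finset V → Prop} {ε : ℝ} (hε : 0 ≤ ε) (x y : V) :
    ind (Pool.Agent.N594.NT.Gr d ε H x y) * (1 - cdg d H x y) ≤ ε := by
  by_cases h : Pool.Agent.N594.NT.Gr d ε H x y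
  · rw [ind_true h]
    have h' : 1 - ε ≤ cdg d H x y := h
    linarith
  · rw [ind_false h]
    linarith

lemma av_inst {Ω : Type} (i₁ i₂ : Fintype Ω) (f : Ω → ℝ) :
    @av Ω i₁ f = @av Ω i₂ f := by
  rw [Subsingleton.elim i₁ i₂]

lemma av_le_const {Ω : Type} [Fintype Ω] [Nonempty Ω] {f : Ω → ℝ} {c : ℝ} (h : ∀ ω, f ω ≤ c) :
    av f ≤ c := by
  have := av_mono (f := f) (g := fun _ => c) h
  rw [av_const] at this
  exact this

theorem main (hP0 : Pool.Agent.N594.NT.S_P0) (hP1 : Pool.Agent.N594.NT.S_P1) :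
    Pool.Agent.N594.NT.S_NB := by
  intro d k hd hk γ hγ
  let C : ℝ := (Fintype.card (Ix d k) : ℝ) ^ 2 + ((S2 d k).card : ℝ) + ((S1 d k).card : ℝ)
  have hC : 0 ≤ C := by positivity
  let M : ℕ := Fintype.card (Ix d k)
  have hγM : 0 < γ ^ M := pow_pos hγ M
  refine ⟨γ ^ M / (2 * (C + 1)), by positivity, ?_⟩
  intro V _ _ H π ε hε hεη hFr hBc x
  by_contra hcon
  push Not at hcon
  have h1 := conf (Pool.Agent.N594.NT.Gr d ε H) π (fun p : Ix d k => p.1) (fun p v => π v = p.1 ∧ Pool.Agent.N594.NT.Gr d ε H x v)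
    (fun p v h => h.1)
  have h2 : γ ^ M ≤ ∏ p : Ix d k, (av fun v => ind (π v = p.1 ∧ Pool.Agent.N594.NT.Gr d ε H x v)) := by
    have h3 : ∏ p : Ix d k, γ ≤ ∏ p : Ix d k, (av fun v => ind (π v = p.1 ∧ Pool.Agent.N594.NT.Gr d ε H x v)) :=
      prod_le_prod (fun _ _ => hγ.le) (fun p _ => hcon p.1)
    rw [prod_const, card_univ] at h3
    exact h3
  have h4 : (av fun ω : Ix d k → V =>
      ind (Good (Pool.Agent.N594.NT.Gr d ε H) (fun p : Ix d k => p.1) (fun p v => π v = p.1 ∧ Pool.Agent.N594.NT.Gr d ε H x v) ω)) ≤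
      ((S2 d k).card : ℝ) * ε + ((S1 d k).card : ℝ) * ε := by
    refine (av_mono fun ω => pointwise (Pool.Agent.N594.NT.Gr d ε H) H hFr π x ω).trans ?_
    rw [av_add, av_sum, av_sum]
    refine add_le_add ?_ ?_
    · rw [← nsmul_eq_mul, ← sum_const]
      refine sum_le_sum fun p hp => ?_
      obtain ⟨-, hJ, hi, hj, hij⟩ := mem_filter.1 hp
      have h5 := hP0 d V H (Ix d k) p.1 p.2.1 p.2.2 (fun x y => ind (Pool.Agent.N594.NT.Gr d ε H x y)) hi hj hij hJ
      have h6 : (av fun ω : Ix d k → V => T2 (Pool.Agent.N594.NT.Gr d ε H) H p ω) =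
          av fun x : V => av fun y : V => ind (Pool.Agent.N594.NT.Gr d ε H x y) * (1 - cdg d H x y) :=
        (av_inst _ _ _).trans h5
      rw [h6]
      exact av_le_const fun x => av_le_const fun y => gr_le hε x y
    · rw [← nsmul_eq_mul, ← sum_const]
      refine sum_le_sum fun p hp => ?_
      obtain ⟨-, hJ, hj⟩ := mem_filter.1 hp
      have h5 := hP1 d V H (Ix d k) p.1 p.2 x (fun y => ind (Pool.Agent.N594.NT.Gr d ε H x y)) hj hJ
      have h6 : (av fun ω : Ix d k → V => T1 (Pool.Agent.N594.NT.Gr d ε H) H x p ω) =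
          av fun y : V => ind (Pool.Agent.N594.NT.Gr d ε H x y) * (1 - cdg d H x y) :=
        (av_inst _ _ _).trans h5
      rw [h6]
      exact av_le_const fun y => gr_le hε x y
  set η : ℝ := γ ^ M / (2 * (C + 1)) with hη
  have hη0 : 0 < η := by positivity
  have h7 : γ ^ M ≤ C * η := by
    have e1 : (Fintype.card (Ix d k) : ℝ) ^ 2 * Bc (Pool.Agent.N594.NT.Gr d ε H) π ≤
        (Fintype.card (Ix d k) : ℝ) ^ 2 * η := mul_le_mul_of_nonneg_left hBc (by positivity)
    have e2 : ((S2 d k).card : ℝ) * ε ≤ ((S2 d k).card : ℝ) * η :=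
      mul_le_mul_of_nonneg_left hεη (by positivity)
    have e3 : ((S1 d k).card : ℝ) * ε ≤ ((S1 d k).card : ℝ) * η :=
      mul_le_mul_of_nonneg_left hεη (by positivity)
    have e4 : C * η = (Fintype.card (Ix d k) : ℝ) ^ 2 * η + ((S2 d k).card : ℝ) * η +
        ((S1 d k).card : ℝ) * η := by
      show ((Fintype.card (Ix d k) : ℝ) ^ 2 + ((S2 d k).card : ℝ) + ((S1 d k).card : ℝ)) * η = _
      ring
    linarith
  have h8 : η * (2 * (C + 1)) = γ ^ M := by
    rw [hη]
    field_simp
  nlinarith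

end Pool.Agent.N624.NT.NB
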